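import Mathlib
set_option autoImplicit false

/-! # Central differences of polynomials in two variables -/

namespace Pool.Agent.V1178.RG

open Finset

/-- binomial coefficients with signs -/
noncomputable def kc (j k : ℕ) : ℝ := (-1 : ℝ) ^ (k + j) * ((2 * j).choose k : ℝ)

/-- the central difference of a power -/
noncomputable def kap (j b : ℕ) : ℝ := ∑ k ∈ range (2 * j + 1), kc j k * ((k : ℝ) - j) ^ b

theorem kap_lt {j b : ℕ} (h : b < 2 * j) : kap j b = 0 := by
  have h1 := congrFun (fwdDiff_iter_pow_eq_zero_of_lt (R := ℝ) h) (-(j : ℝ))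
  rw [fwdDiff_iter_eq_sum_shift] at h1
  have h2 : kap j b = (-1 : ℝ) ^ j * ∑ k ∈ range (2 * j + 1),
      ((-1 : ℤ) ^ (2 * j - k) * ((2 * j).choose k : ℤ)) • (-(j : ℝ) + k • (1 : ℝ)) ^ b := by
    unfold kap
    rw [mul_sum]
    refine sum_congr rfl fun k hk => ?_
    have hk' : k ≤ 2 * j := by have := mem_range.1 hk; omega
    have e1 : (-1 : ℝ) ^ (2 * j - k) = (-1 : ℝ) ^ k := by
      have : (-1 : ℝ) ^ (2 * j - k) * (-1 : ℝ) ^ k * (-1 : ℝ) ^ k = (-1 : ℝ) ^ k := by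
        rw [← pow_add, Nat.sub_add_cancel hk', pow_mul, neg_one_sq, one_pow, one_mul]
      rw [mul_assoc, ← pow_add, ← two_mul, pow_mul, neg_one_sq, one_pow, mul_one] at this
      exact this
    rw [zsmul_eq_mul, nsmul_eq_mul]
    push_cast
    rw [e1]
    unfold kc
    rw [pow_add]
    ring
  rw [h2, h1]
  simp

theorem kap_odd {j b : ℕ} (hb : Odd b) : kap j b = 0 := by
  have h1 : kap j b = -kap j b := by
    conv_lhs => unfold kap
    rw [← sum_range_reflect]
    unfold kap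
    rw [← sum_neg_distrib]
    refine sum_congr rfl fun k hk => ?_
    have hk' : k ≤ 2 * j := by have := mem_range.1 hk; omega
    have e0 : 2 * j + 1 - 1 - k = 2 * j - k := by omega
    rw [e0]
    unfold kc
    have e1 : (-1 : ℝ) ^ (2 * j - k + j) = (-1 : ℝ) ^ (k + j) := by
      have h2 : (-1 : ℝ) ^ (2 * j - k + j) * (-1 : ℝ) ^ (k + j) = 1 := by
        rw [← pow_add, show 2 * j - k + j + (k + j) = 2 * (2 * j) by omega, pow_mul, neg_one_sq,
          one_pow]
      have h3 : (-1 : ℝ) ^ (k + j) * (-1 : ℝ) ^ (k + j) = 1 := by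
        rw [← pow_add, ← two_mul, pow_mul, neg_one_sq, one_pow]
      have h4 : (-1 : ℝ) ^ (k + j) ≠ 0 := by positivity
      exact mul_right_cancel₀ h4 (h2.trans h3.symm)
    rw [e1, Nat.choose_symm hk', Nat.cast_sub hk']
    push_cast
    have e2 : (2 * (j : ℝ) - k - j) = -((k : ℝ) - j) := by ring
    rw [e2, hb.neg_pow]
    ring
  linarith

/-- The data of a polynomial in two variables. -/
noncomputable def pol (M : ℕ) (Q : ℕ → ℕ → ℂ) (s t : ℝ) : ℂ :=
  ∑ a ∈ range M, ∑ b ∈ range M, Q a b * ((s : ℂ) ^ a * (t : ℂ) ^ b)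

/-- the central difference of `q(s, ·)` with step `t` -/
noncomputable def DD (q : ℝ → ℝ → ℂ) (j : ℕ) (s t : ℝ) : ℂ :=
  ∑ k ∈ range (2 * j + 1), (kc j k : ℂ) * q s (((k : ℝ) - j) * t)

theorem DD_pol (M : ℕ) (Q : ℕ → ℕ → ℂ) (j : ℕ) (s t : ℝ) :
    DD (pol M Q) j s t = ∑ a ∈ range M, ∑ b ∈ range M,
      Q a b * (kap j b : ℂ) * ((s : ℂ) ^ a * (t : ℂ) ^ b) := by
  unfold DD pol kap
  simp_rw [mul_sum]
  rw [sum_comm]
  refine sum_congr rfl fun a _ => ?_
  rw [sum_comm]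
  refine sum_congr rfl fun b _ => ?_
  push_cast
  rw [mul_sum, sum_mul]
  refine sum_congr rfl fun k _ => ?_
  push_cast
  rw [mul_pow]
  ring

/-- The main term. -/
noncomputable def cc (M : ℕ) (Q : ℕ → ℕ → ℂ) (j : ℕ) : ℂ :=
  if 0 < M ∧ 2 * j < M then Q 0 (2 * j) * (kap j (2 * j) : ℂ) else 0

theorem DD_bound (M : ℕ) (Q : ℕ → ℕ → ℂ) (j : ℕ) : ∃ C : ℝ, 0 ≤ C ∧ ∀ s t : ℝ, 0 ≤ s → s ≤ 1 → 0 ≤ t → t ≤ 1 →
    ‖DD (pol M Q) j s t - (t : ℂ) ^ (2 * j) * cc M Q j‖ ≤ C * t ^ (2 * j) * (s + t ^ 2) := by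
  refine ⟨∑ a ∈ range M, ∑ b ∈ range M, ‖Q a b * (kap j b : ℂ)‖, by positivity, ?_⟩
  intro s t hs0 hs1 ht0 ht1
  have hmain : (t : ℂ) ^ (2 * j) * cc M Q j = ∑ a ∈ range M, ∑ b ∈ range M,
      (if a = 0 ∧ b = 2 * j then Q a b * (kap j b : ℂ) * ((s : ℂ) ^ a * (t : ℂ) ^ b) else 0) := by
    unfold cc
    by_cases hM : 0 < M ∧ 2 * j < M
    · rw [if_pos hM]
      rw [sum_eq_single 0]
      · rw [sum_eq_single (2 * j)]
        · simp; ring
        · intro b _ hb
          rw [if_neg]; rintro ⟨_, h⟩; exact hb h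
        · intro h; exact absurd (mem_range.2 hM.2) h
      · intro a _ ha
        refine sum_eq_zero fun b _ => ?_
        rw [if_neg]; rintro ⟨h, _⟩; exact ha h
      · intro h; exact absurd (mem_range.2 hM.1) h
    · rw [if_neg hM, mul_zero]
      symm
      refine sum_eq_zero fun a ha => sum_eq_zero fun b hb => ?_
      rw [if_neg]
      rintro ⟨rfl, rfl⟩
      exact hM ⟨mem_range.1 ha, mem_range.1 hb⟩
  rw [hmain, DD_pol, ← sum_sub_distrib]
  simp_rw [← sum_sub_distrib]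
  refine (norm_sum_le _ _).trans ?_
  simp_rw [sum_mul]
  refine sum_le_sum fun a _ => ?_
  refine (norm_sum_le _ _).trans ?_
  refine sum_le_sum fun b _ => ?_
  by_cases h : a = 0 ∧ b = 2 * j
  · rw [if_pos h, sub_self, norm_zero]
    positivity
  · rw [if_neg h, sub_zero, norm_mul, mul_assoc]
    by_cases hk : kap j b = 0
    · rw [hk]; simp
    · refine mul_le_mul_of_nonneg_left ?_ (norm_nonneg _)
      have hb : 2 * j ≤ b := by
        by_contra hb
        exact hk (kap_lt (not_le.mp hb))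
      have hodd : ¬ Odd b := fun ho => hk (kap_odd ho)
      rw [norm_mul, norm_pow, norm_pow, Complex.norm_real, Complex.norm_real,
        Real.norm_of_nonneg hs0, Real.norm_of_nonneg ht0]
      have htb : t ^ b ≤ t ^ (2 * j) := pow_le_pow_of_le_one ht0 ht1 hb
      by_cases ha : a = 0
      · have hb2 : 2 * j + 2 ≤ b := by
          have : b ≠ 2 * j := fun h' => h ⟨ha, h'⟩
          rw [Nat.not_odd_iff_even] at hodd
          obtain ⟨c, rfl⟩ := hodd
          omega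
        subst ha
        rw [pow_zero, one_mul]
        calc t ^ b ≤ t ^ (2 * j + 2) := pow_le_pow_of_le_one ht0 ht1 hb2
          _ = t ^ (2 * j) * t ^ 2 := pow_add _ _ _
          _ ≤ t ^ (2 * j) * (s + t ^ 2) := mul_le_mul_of_nonneg_left (by linarith) (by positivity)
      · have hs' : s ^ a ≤ s := by
          calc s ^ a ≤ s ^ 1 := pow_le_pow_of_le_one hs0 hs1 (Nat.one_le_iff_ne_zero.2 ha)
            _ = s := pow_one s
        calc s ^ a * t ^ b ≤ s * t ^ (2 * j) := mul_le_mul hs' htb (by positivity) hs0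
          _ = t ^ (2 * j) * s := mul_comm _ _
          _ ≤ t ^ (2 * j) * (s + t ^ 2) := mul_le_mul_of_nonneg_left (by nlinarith) (by positivity)

theorem cc_zero {M : ℕ} (Q : ℕ → ℕ → ℂ) {j : ℕ} (h : M ≤ 2 * j) : cc M Q j = 0 := by
  unfold cc
  rw [if_neg]
  rintro ⟨_, h'⟩
  omega

end Pool.Agent.V1178.RG
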