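import Mathlib
set_option autoImplicit false

/-! # Functionals of norm one on bounded functions -/

namespace Pool.Agent.V1178.RG

open Filter Topology Set
open scoped BoundedContinuousFunction InnerProductSpace

variable {E : Type*} [NormedAddCommGroup E] [InnerProductSpace ℝ E]

/-- the exponential with frequency `η` -/
noncomputable def eB (η : E) : E →ᵇ ℂ :=
  BoundedContinuousFunction.ofNormedAddCommGroup (fun x => Complex.exp (Complex.I * ((⟪η, x⟫_ℝ : ℝ) : ℂ)))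
    (by fun_prop) 1 (fun x => by rw [mul_comm, Complex.norm_exp_ofReal_mul_I])

theorem eB_apply (η x : E) : eB η x = Complex.exp (Complex.I * ((⟪η, x⟫_ℝ : ℝ) : ℂ)) := rfl

theorem eB_norm (η x : E) : ‖eB η x‖ = 1 := by
  rw [eB_apply, mul_comm, Complex.norm_exp_ofReal_mul_I]

theorem eB_mul (η ζ : E) : eB η * eB ζ = eB (η + ζ) := by
  ext x
  rw [BoundedContinuousFunction.mul_apply, eB_apply, eB_apply, eB_apply, ← Complex.exp_add,
    inner_add_left]
  push_cast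
  ring_nf

theorem eB_zero : eB (0 : E) = 1 := by
  ext x
  simp [eB_apply]

/-- the extension of a functional -/
theorem exists_ext (S : Set E) (φ : E → ℂ)
    (h : ∀ c : S →₀ ℂ, ‖c.sum fun η a => a * φ η‖ ≤ ‖c.sum fun η a => a • eB (η : E)‖) :
    ∃ L : (E →ᵇ ℂ) →L[ℂ] ℂ, ‖L‖ ≤ 1 ∧ ∀ η ∈ S, L (eB η) = φ η := by
  let T : (S →₀ ℂ) →ₗ[ℂ] (E →ᵇ ℂ) := Finsupp.linearCombination ℂ (fun η : S => eB (η : E))
  let F : (S →₀ ℂ) →ₗ[ℂ] ℂ := Finsupp.linearCombination ℂ (fun η : S => φ η)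
  have hTF : ∀ c, ‖F c‖ ≤ ‖T c‖ := by
    intro c
    have := h c
    simpa [T, F, Finsupp.linearCombination_apply] using this
  have hker : LinearMap.ker T ≤ LinearMap.ker F := by
    intro c hc
    rw [LinearMap.mem_ker] at hc ⊢
    have := hTF c
    rw [hc, norm_zero] at this
    exact norm_eq_zero.mp (le_antisymm this (norm_nonneg _))
  let G : LinearMap.range T →ₗ[ℂ] ℂ :=
    ((LinearMap.ker T).liftQ F hker).comp (T.quotKerEquivRange.symm : _ →ₗ[ℂ] _)
  have hG : ∀ c, G ⟨T c, LinearMap.mem_range_self T c⟩ = F c := by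
    intro c
    have : T.quotKerEquivRange.symm ⟨T c, LinearMap.mem_range_self T c⟩ = (LinearMap.ker T).mkQ c :=
      LinearMap.quotKerEquivRange_symm_apply_image T c _
    simp [G, this]
  have hGb : ∀ y : LinearMap.range T, ‖G y‖ ≤ 1 * ‖y‖ := by
    rintro ⟨y, c, rfl⟩
    rw [hG, one_mul]
    exact hTF c
  let Gc : StrongDual ℂ (LinearMap.range T) := G.mkContinuous 1 hGb
  obtain ⟨L, hL, hLn⟩ := exists_extension_norm_eq (LinearMap.range T) Gc
  refine ⟨L, ?_, ?_⟩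
  · rw [hLn]
    exact LinearMap.mkContinuous_norm_le _ zero_le_one _
  · intro η hη
    have h1 : T (Finsupp.single ⟨η, hη⟩ 1) = eB η := by simp [T]
    have h2 := hL ⟨T (Finsupp.single ⟨η, hη⟩ 1), LinearMap.mem_range_self T _⟩
    have h3 : Gc ⟨T (Finsupp.single ⟨η, hη⟩ 1), LinearMap.mem_range_self T _⟩ =
      F (Finsupp.single ⟨η, hη⟩ 1) := hG _
    rw [h3] at h2
    simp only [h1] at h2
    rw [h2]
    simp [F]

/-- a functional of norm one with `L 1 = 1` -/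
structure Mean (L : (E →ᵇ ℂ) →L[ℂ] ℂ) : Prop where
  norm : ‖L‖ ≤ 1
  one : L 1 = 1

theorem Mean.re_nonneg {L : (E →ᵇ ℂ) →L[ℂ] ℂ} (hL : Mean L) {h : E →ᵇ ℂ}
    (hh : ∀ x, 0 ≤ (h x).re) : 0 ≤ (L h).re := by
  by_contra hneg
  push Not at hneg
  set a := (L h).re with ha
  set H := ‖h‖ with hH
  -- choose c large
  have key : ∀ c : ℝ, 0 < c → (c - a) ^ 2 ≤ c ^ 2 + H ^ 2 := by
    intro c hc
    have h1 : ‖(c : ℂ) • (1 : E →ᵇ ℂ) - h‖ ≤ Real.sqrt (c ^ 2 + H ^ 2) := by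
      rw [BoundedContinuousFunction.norm_le (Real.sqrt_nonneg _)]
      intro x
      apply Real.le_sqrt_of_sq_le
      have e : ((c : ℂ) • (1 : E →ᵇ ℂ) - h) x = (c : ℂ) - h x := by simp
      rw [e, ← Complex.normSq_eq_norm_sq, Complex.normSq_apply]
      have hb : ‖h x‖ ≤ H := h.norm_coe_le_norm x
      have hb2 : (h x).re * (h x).re + (h x).im * (h x).im ≤ H ^ 2 := by
        rw [← Complex.normSq_apply, Complex.normSq_eq_norm_sq]
        exact pow_le_pow_left₀ (norm_nonneg _) hb 2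
      simp only [Complex.sub_re, Complex.ofReal_re, Complex.sub_im, Complex.ofReal_im]
      nlinarith [hh x, mul_nonneg hc.le (hh x)]
    have h2 : ‖L ((c : ℂ) • (1 : E →ᵇ ℂ) - h)‖ ≤ Real.sqrt (c ^ 2 + H ^ 2) := by
      refine (L.le_opNorm _).trans ?_
      refine (mul_le_mul hL.norm h1 (norm_nonneg _) zero_le_one).trans (by rw [one_mul])
    have h3 : (L ((c : ℂ) • (1 : E →ᵇ ℂ) - h)).re = c - a := by
      rw [map_sub, map_smul, hL.one]
      simp [ha]
    have h4 : c - a ≤ Real.sqrt (c ^ 2 + H ^ 2) := by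
      rw [← h3]
      exact (Complex.re_le_norm _).trans h2
    have h5 : 0 ≤ c - a := by linarith
    calc (c - a) ^ 2 ≤ (Real.sqrt (c ^ 2 + H ^ 2)) ^ 2 := pow_le_pow_left₀ h5 h4 2
      _ = c ^ 2 + H ^ 2 := Real.sq_sqrt (by positivity)
  have h1 := key ((H ^ 2 + 1) / (-a)) (by apply div_pos; positivity; linarith)
  have h2 : ((H ^ 2 + 1) / (-a)) * (-a) = H ^ 2 + 1 := div_mul_cancel₀ _ (by linarith)
  nlinarith [sq_nonneg a, sq_nonneg H]

theorem Mean.mono {L : (E →ᵇ ℂ) →L[ℂ] ℂ} (hL : Mean L) {h k : E →ᵇ ℂ}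
    (hh : ∀ x, (h x).re ≤ (k x).re) : (L h).re ≤ (L k).re := by
  have := hL.re_nonneg (h := k - h) (fun x => by
    rw [BoundedContinuousFunction.sub_apply, Complex.sub_re]; linarith [hh x])
  rw [map_sub, Complex.sub_re] at this
  linarith

theorem Mean.congr {L : (E →ᵇ ℂ) →L[ℂ] ℂ} (hL : Mean L) {h k : E →ᵇ ℂ}
    (hh : ∀ x, (h x).re = (k x).re) : (L h).re = (L k).re :=
  le_antisymm (hL.mono fun x => (hh x).le) (hL.mono fun x => (hh x).ge)

theorem Mean.real_smul {L : (E →ᵇ ℂ) →L[ℂ] ℂ} (c : ℝ) (h : E →ᵇ ℂ) :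
    (L ((c : ℂ) • h)).re = c * (L h).re := by
  rw [map_smul]; simp

end Pool.Agent.V1178.RG
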