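import Mathlib
import Pool.Agent.V1178.RG.Fun
import Pool.Agent.V1178.RG.Dif
set_option autoImplicit false

/-! # Vanishing of the tangential moments -/

namespace Pool.Agent.V1178.RG

open Filter Topology Set Finset
open scoped BoundedContinuousFunction InnerProductSpace

variable {E : Type*} [NormedAddCommGroup E] [InnerProductSpace ℝ E]

theorem oneB_apply (x : E) : (1 : E →ᵇ ℂ) x = 1 := rfl

/-- `2 - 2 cos t⟨ω, x⟩` -/
noncomputable def Uf (ω : E) (t : ℝ) : E →ᵇ ℂ := (2 : ℂ) • (1 : E →ᵇ ℂ) - eB (t • ω) - eB (-(t • ω))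

theorem exp_add_exp (θ : ℝ) : Complex.exp (Complex.I * (θ : ℂ)) + Complex.exp (Complex.I * ((-θ : ℝ) : ℂ)) =
    ((2 * Real.cos θ : ℝ) : ℂ) := by
  push_cast
  rw [Complex.two_cos]
  ring_nf

theorem Uf_apply (ω : E) (t : ℝ) (x : E) :
    Uf ω t x = ((2 - 2 * Real.cos (t * ⟪ω, x⟫_ℝ) : ℝ) : ℂ) := by
  have h1 := exp_add_exp (t * ⟪ω, x⟫_ℝ)
  unfold Uf
  rw [BoundedContinuousFunction.sub_apply, BoundedContinuousFunction.sub_apply, eB_apply, eB_apply,
    inner_neg_left, real_inner_smul_left, sub_sub, h1]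
  simp

theorem Uf_pow_apply (ω : E) (t : ℝ) (j : ℕ) (x : E) :
    (Uf ω t ^ j) x = (((2 - 2 * Real.cos (t * ⟪ω, x⟫_ℝ)) ^ j : ℝ) : ℂ) := by
  rw [BoundedContinuousFunction.pow_apply, Uf_apply]
  push_cast; rfl

theorem two_sub_nonneg (θ : ℝ) : 0 ≤ 2 - 2 * Real.cos θ := by linarith [Real.cos_le_one θ]

theorem two_sub_le (θ : ℝ) : 2 - 2 * Real.cos θ ≤ 4 := by linarith [Real.neg_one_le_cos θ]

/-- `1 - cos s⟨ν, x⟩` -/
noncomputable def Cf (ν : E) (s : ℝ) : E →ᵇ ℂ := (2⁻¹ : ℂ) • Uf ν s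

theorem Cf_apply (ν : E) (s : ℝ) (x : E) :
    Cf ν s x = ((1 - Real.cos (s * ⟪ν, x⟫_ℝ) : ℝ) : ℂ) := by
  unfold Cf
  rw [BoundedContinuousFunction.smul_apply, Uf_apply]
  push_cast
  simp only [smul_eq_mul]
  ring

/-- the expansion -/
theorem expand (ν ω : E) (s t : ℝ) (j : ℕ) :
    eB (-(s • ν)) * Uf ω t ^ j = ∑ k ∈ range (2 * j + 1),
      (kc j k : ℂ) • eB ((((k : ℝ) - j) * t) • ω - s • ν) := by
  ext x
  rw [BoundedContinuousFunction.mul_apply, BoundedContinuousFunction.pow_apply,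
    BoundedContinuousFunction.coe_sum, Finset.sum_apply]
  simp only [BoundedContinuousFunction.smul_apply, eB_apply, inner_sub_left, real_inner_smul_left,
    inner_neg_left, smul_eq_mul]
  set A := ⟪ν, x⟫_ℝ
  set θ := ⟪ω, x⟫_ℝ
  have hU : Uf ω t x = 2 - Complex.exp (Complex.I * ((t * θ : ℝ) : ℂ)) -
      (Complex.exp (Complex.I * ((t * θ : ℝ) : ℂ)))⁻¹ := by
    unfold Uf
    rw [BoundedContinuousFunction.sub_apply, BoundedContinuousFunction.sub_apply, eB_apply, eB_apply,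
      inner_neg_left, real_inner_smul_left, ← Complex.exp_neg]
    simp [θ]
  rw [hU]
  set z := Complex.exp (Complex.I * ((t * θ : ℝ) : ℂ)) with hz
  have hz0 : z ≠ 0 := Complex.exp_ne_zero _
  have h1 : (2 - z - z⁻¹) ^ j = (-1) ^ j * z⁻¹ ^ j * (z - 1) ^ (2 * j) := by
    have : 2 - z - z⁻¹ = (-1) * z⁻¹ * (z - 1) ^ 2 := by
      field_simp
      ring
    rw [this, mul_pow, mul_pow, ← pow_mul]
  rw [h1, sub_eq_add_neg z 1, add_pow, mul_sum, mul_sum]
  refine sum_congr rfl fun k hk => ?_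
  have hk' : k ≤ 2 * j := by have := mem_range.1 hk; omega
  have e1 : Complex.exp (Complex.I * (((((k : ℝ) - j) * t) * θ - s * A : ℝ) : ℂ)) =
      Complex.exp (Complex.I * ((-(s * A) : ℝ) : ℂ)) * (z⁻¹ ^ j * z ^ k) := by
    rw [hz, ← Complex.exp_neg, ← Complex.exp_nat_mul, ← Complex.exp_nat_mul, ← Complex.exp_add,
      ← Complex.exp_add]
    congr 1
    push_cast
    ring
  have e2 : (-1 : ℂ) ^ (2 * j - k) = (-1 : ℂ) ^ k := by
    have : (-1 : ℂ) ^ (2 * j - k) * (-1 : ℂ) ^ k * (-1 : ℂ) ^ k = (-1 : ℂ) ^ k := by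
      rw [← pow_add, Nat.sub_add_cancel hk', pow_mul, neg_one_sq, one_pow, one_mul]
    rw [mul_assoc, ← pow_add, ← two_mul, pow_mul, neg_one_sq, one_pow, mul_one] at this
    exact this
  rw [e1, e2]
  unfold kc
  push_cast
  rw [pow_add]
  ring

/-- The situation. -/
structure Sit (L : (E →ᵇ ℂ) →L[ℂ] ℂ) (ν ω : E) (r : ℝ) (M : ℕ) (Q : ℕ → ℕ → ℂ) : Prop where
  mean : Mean L
  r0 : 0 < r
  val : ∀ s t : ℝ, 0 ≤ s → s ^ 2 + t ^ 2 ≤ 2 * r * s → L (eB (t • ω - s • ν)) = pol M Q s t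
  q0 : pol M Q 0 0 = 1

variable {L : (E →ᵇ ℂ) →L[ℂ] ℂ} {ν ω : E} {r : ℝ} {M : ℕ} {Q : ℕ → ℕ → ℂ}

/-- the moment `w_j(t)` -/
noncomputable def ww (L : (E →ᵇ ℂ) →L[ℂ] ℂ) (ω : E) (j : ℕ) (t : ℝ) : ℝ := (L (Uf ω t ^ j)).re

theorem Sit.DD_eq (h : Sit L ν ω r M Q) {j : ℕ} {s t : ℝ} (hs : 0 ≤ s)
    (hst : s ^ 2 + (j * t) ^ 2 ≤ 2 * r * s) :
    L (eB (-(s • ν)) * Uf ω t ^ j) = DD (pol M Q) j s t := by
  rw [expand, map_sum]
  unfold DD
  refine sum_congr rfl fun k hk => ?_
  have hk' : (k : ℝ) ≤ 2 * j := by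
    have := mem_range.1 hk
    exact_mod_cast (by omega : k ≤ 2 * j)
  rw [map_smul, smul_eq_mul, h.val _ _ hs]
  have : ((k : ℝ) - j) ^ 2 ≤ (j : ℝ) ^ 2 := by
    apply sq_le_sq'
    · linarith [(Nat.cast_nonneg k : (0 : ℝ) ≤ k)]
    · linarith
  rw [mul_pow] at hst ⊢
  nlinarith [sq_nonneg t, mul_le_mul_of_nonneg_right this (sq_nonneg t)]

theorem Sit.F_eq (h : Sit L ν ω r M Q) {j : ℕ} {s t : ℝ} (hs : 0 ≤ s)
    (hst : s ^ 2 + (j * t) ^ 2 ≤ 2 * r * s) :
    (L (Cf ν s * Uf ω t ^ j)).re = ww L ω j t - (DD (pol M Q) j s t).re := by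
  rw [← h.DD_eq hs hst]
  unfold ww
  rw [← Complex.sub_re, ← map_sub]
  apply h.mean.congr
  intro x
  rw [BoundedContinuousFunction.mul_apply, Uf_pow_apply, Cf_apply,
    BoundedContinuousFunction.sub_apply, BoundedContinuousFunction.mul_apply, Uf_pow_apply, eB_apply,
    inner_neg_left, real_inner_smul_left, Complex.sub_re, ← Complex.ofReal_mul, Complex.ofReal_re,
    Complex.ofReal_re, Complex.re_mul_ofReal, mul_comm Complex.I, Complex.exp_ofReal_mul_I_re,
    Real.cos_neg]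
  ring

theorem Sit.ww_nonneg (h : Sit L ν ω r M Q) (j : ℕ) (t : ℝ) : 0 ≤ ww L ω j t := by
  apply h.mean.re_nonneg
  intro x
  rw [Uf_pow_apply, Complex.ofReal_re]
  exact pow_nonneg (two_sub_nonneg _) j

theorem Sit.ww_le (h : Sit L ν ω r M Q) (j : ℕ) (t : ℝ) : ww L ω j t ≤ 4 ^ j := by
  have h1 : ww L ω j t ≤ (L (((4 ^ j : ℝ) : ℂ) • (1 : E →ᵇ ℂ))).re := by
    apply h.mean.mono
    intro x
    rw [Uf_pow_apply, Complex.ofReal_re]
    simp only [BoundedContinuousFunction.smul_apply, oneB_apply, smul_eq_mul, mul_one, Complex.ofReal_re]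
    exact pow_le_pow_left₀ (two_sub_nonneg _) (two_sub_le _) j
  refine h1.trans ?_
  rw [Mean.real_smul, h.mean.one]
  simp

/-- the elementary inequality `|1 - z^N| ≤ N |1 - z|` -/
theorem cos_mul_le (N : ℕ) (θ : ℝ) : 2 - 2 * Real.cos (N * θ) ≤ N ^ 2 * (2 - 2 * Real.cos θ) := by
  have e : ∀ x : ℝ, 2 - 2 * Real.cos x = (2 * Real.sin (x / 2)) ^ 2 := by
    intro x
    have h1 := Real.cos_sq' (x / 2)
    have h2 := Real.cos_two_mul (x / 2)
    rw [show 2 * (x / 2) = x by ring] at h2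
    nlinarith
  have hs : ∀ (N : ℕ) (y : ℝ), |Real.sin (N * y)| ≤ N * |Real.sin y| := by
    intro N y
    induction N with
    | zero => simp
    | succ N ih =>
      push_cast
      rw [add_mul, one_mul, Real.sin_add]
      calc |Real.sin (N * y) * Real.cos y + Real.cos (N * y) * Real.sin y|
          ≤ |Real.sin (N * y) * Real.cos y| + |Real.cos (N * y) * Real.sin y| := abs_add_le _ _
        _ ≤ |Real.sin (N * y)| * 1 + 1 * |Real.sin y| := by
            rw [abs_mul, abs_mul]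
            exact add_le_add (mul_le_mul_of_nonneg_left (Real.abs_cos_le_one _) (abs_nonneg _))
              (mul_le_mul_of_nonneg_right (Real.abs_cos_le_one _) (abs_nonneg _))
        _ ≤ _ := by rw [add_mul]; linarith
  rw [e, e, ← mul_pow]
  rw [← sq_abs (2 * Real.sin (N * θ / 2)), ← sq_abs ((N : ℝ) * (2 * Real.sin (θ / 2)))]
  apply pow_le_pow_left₀ (abs_nonneg _)
  rw [abs_mul, abs_mul, abs_mul, abs_of_nonneg (Nat.cast_nonneg N : (0 : ℝ) ≤ N), abs_two]
  have := hs N (θ / 2)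
  rw [← mul_div_assoc] at this
  nlinarith

theorem Sit.scale (h : Sit L ν ω r M Q) (j N : ℕ) (hN : 1 ≤ N) (t : ℝ) :
    ww L ω j t ≤ (N : ℝ) ^ (2 * j) * ww L ω j (t / N) := by
  unfold ww
  rw [← Mean.real_smul]
  apply h.mean.mono
  intro x
  have hN0 : (N : ℝ) ≠ 0 := by positivity
  rw [BoundedContinuousFunction.smul_apply, Uf_pow_apply, Uf_pow_apply, smul_eq_mul,
    ← Complex.ofReal_mul, Complex.ofReal_re, Complex.ofReal_re, pow_mul, ← mul_pow]
  apply pow_le_pow_left₀ (two_sub_nonneg _)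
  have := cos_mul_le N (t / N * ⟪ω, x⟫_ℝ)
  rw [← mul_assoc, mul_div_cancel₀ _ hN0] at this
  exact this

/-- **Uniform integrability**: the upper bound for the moments. -/
theorem Sit.upper (h : Sit L ν ω r M Q) (j : ℕ) (hP : ∃ C : ℝ, ∀ t : ℝ, 0 < t → ww L ω j t ≤ C * t ^ (2 * j)) :
    ∀ t : ℝ, 0 < t → ww L ω j t ≤ (cc M Q j).re * t ^ (2 * j) := by
  obtain ⟨C₁, hC₁⟩ := hP
  set S : Set ℝ := {y | ∃ t : ℝ, 0 < t ∧ y = ww L ω j t / t ^ (2 * j)} with hS
  have hne : S.Nonempty := ⟨_, 1, one_pos, rfl⟩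
  have hbd : BddAbove S := by
    refine ⟨C₁, ?_⟩
    rintro _ ⟨t, ht, rfl⟩
    rw [div_le_iff₀ (by positivity)]
    exact hC₁ t ht
  set m := sSup S with hm
  have hle : ∀ t : ℝ, 0 < t → ww L ω j t ≤ m * t ^ (2 * j) := by
    intro t ht
    rw [← div_le_iff₀ (by positivity)]
    exact le_csSup hbd ⟨t, ht, rfl⟩
  obtain ⟨C, hC0, hC⟩ := DD_bound M Q j
  obtain ⟨C₀, hC₀0, hC₀⟩ := DD_bound M Q 0
  have key : m ≤ (cc M Q j).re := by
    by_contra hcon
    push Not at hcon
    set ε := (m - (cc M Q j).re) / 4 with hε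
    have hε0 : 0 < ε := by rw [hε]; linarith
    obtain ⟨_, ⟨t₀, ht₀, rfl⟩, hlt⟩ := exists_lt_of_lt_csSup hne (show m - ε < sSup S by linarith)
    have hlt' : (m - ε) * t₀ ^ (2 * j) < ww L ω j t₀ := by
      rwa [lt_div_iff₀ (by positivity)] at hlt
    -- choose s
    have hs : ∃ s : ℝ, 0 < s ∧ s ≤ 1 ∧ s ≤ r ∧ C * (s + s ^ 2) < ε / 2 ∧
        4 ^ j * (C₀ * s) < ε / 2 * t₀ ^ (2 * j) := by
      set A := C * 2 + 4 ^ j * C₀ / t₀ ^ (2 * j) + 1 with hA
      have hA0 : 0 < A := by positivity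
      refine ⟨min (min 1 r) (ε / 2 / A / 2), ?_, ?_, ?_, ?_, ?_⟩
      · have := h.r0
        positivity
      · exact (min_le_left _ _).trans (min_le_left _ _)
      · exact (min_le_left _ _).trans (min_le_right _ _)
      · set s := min (min 1 r) (ε / 2 / A / 2)
        have hs0 : 0 < s := by have := h.r0; positivity
        have hs1 : s ≤ 1 := (min_le_left _ _).trans (min_le_left _ _)
        have hs2 : s ≤ ε / 2 / A / 2 := min_le_right _ _
        have hs3 : s * A < ε / 2 := by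
          have : s * A ≤ ε / 2 / A / 2 * A := mul_le_mul_of_nonneg_right hs2 hA0.le
          have e : ε / 2 / A / 2 * A = ε / 4 := by field_simp; norm_num
          linarith
        have h2 : C * (s + s ^ 2) ≤ s * A := by
          have : C * (s + s ^ 2) ≤ s * (C * 2) := by nlinarith [mul_nonneg hC0 hs0.le]
          have h3 : 0 ≤ s * (4 ^ j * C₀ / t₀ ^ (2 * j) + 1) := by positivity
          rw [hA]; nlinarith
        linarith
      · set s := min (min 1 r) (ε / 2 / A / 2)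
        have hs0 : 0 < s := by have := h.r0; positivity
        have hs2 : s ≤ ε / 2 / A / 2 := min_le_right _ _
        have hs3 : s * A < ε / 2 := by
          have : s * A ≤ ε / 2 / A / 2 * A := mul_le_mul_of_nonneg_right hs2 hA0.le
          have e : ε / 2 / A / 2 * A = ε / 4 := by field_simp; norm_num
          linarith
        have h2 : s * (4 ^ j * C₀ / t₀ ^ (2 * j)) ≤ s * A := by
          apply mul_le_mul_of_nonneg_left _ hs0.le
          rw [hA]; nlinarith
        have h3 : s * (4 ^ j * C₀ / t₀ ^ (2 * j)) < ε / 2 := lt_of_le_of_lt h2 hs3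
        have h4 : 0 < t₀ ^ (2 * j) := by positivity
        calc 4 ^ j * (C₀ * s) = s * (4 ^ j * C₀ / t₀ ^ (2 * j)) * t₀ ^ (2 * j) := by
              field_simp
          _ < _ := mul_lt_mul_of_pos_right h3 h4
    obtain ⟨s, hs0, hs1, hsr, hsC, hsC'⟩ := hs
    -- choose N
    obtain ⟨N, hN⟩ := exists_nat_gt (max 1 (max (t₀ / s) ((j : ℝ) * t₀ / s)))
    have hN1 : (1 : ℝ) < N := lt_of_le_of_lt (le_max_left _ _) hN
    have hN1' : 1 ≤ N := by exact_mod_cast hN1.le
    have hN0 : (0 : ℝ) < N := by linarith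
    have hts : t₀ / N ≤ s := by
      have : t₀ / s < N := lt_of_le_of_lt ((le_max_left _ _).trans (le_max_right _ _)) hN
      rw [div_lt_iff₀ hs0] at this
      rw [div_le_iff₀ hN0]; linarith
    have htj : (j : ℝ) * (t₀ / N) ≤ s := by
      have : (j : ℝ) * t₀ / s < N := lt_of_le_of_lt ((le_max_right _ _).trans (le_max_right _ _)) hN
      rw [div_lt_iff₀ hs0] at this
      rw [← mul_div_assoc, div_le_iff₀ hN0]; linarith
    set t := t₀ / N with ht
    have ht0 : 0 < t := by positivity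
    have hNt : (N : ℝ) ^ (2 * j) * t ^ (2 * j) = t₀ ^ (2 * j) := by
      rw [← mul_pow, ht, mul_div_cancel₀ _ hN0.ne']
    have hreg : s ^ 2 + (j * t) ^ 2 ≤ 2 * r * s := by
      have h1 : (j * t) ^ 2 ≤ s ^ 2 := pow_le_pow_left₀ (by positivity) htj 2
      nlinarith
    have hF := h.F_eq hs0.le hreg
    -- lower bound for F
    have hD := hC s t hs0.le hs1 ht0.le (hts.trans hs1)
    have hD' : (DD (pol M Q) j s t).re ≤ t ^ (2 * j) * (cc M Q j).re + C * t ^ (2 * j) * (s + t ^ 2) := by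
      have h1 := (Complex.re_le_norm _).trans hD
      rw [Complex.sub_re, ← Complex.ofReal_pow, Complex.re_ofReal_mul] at h1
      linarith
    have hlow : (m - ε) * t₀ ^ (2 * j) ≤ (N : ℝ) ^ (2 * j) * ww L ω j t := hlt'.le.trans (h.scale j N hN1' t₀)
    -- upper bound for N^{2j} F
    have hup : (N : ℝ) ^ (2 * j) * (L (Cf ν s * Uf ω t ^ j)).re ≤
        4 ^ j * (L (Cf ν s)).re + 2 * ((N : ℝ) ^ (2 * j) * ww L ω j t - ww L ω j t₀) := by
      have h1 : (L ((((N : ℝ) ^ (2 * j) : ℝ) : ℂ) • (Cf ν s * Uf ω t ^ j))).re ≤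
          (L (((4 ^ j : ℝ) : ℂ) • Cf ν s + ((2 : ℝ) : ℂ) • ((((N : ℝ) ^ (2 * j) : ℝ) : ℂ) • Uf ω t ^ j
            - Uf ω t₀ ^ j))).re := by
        apply h.mean.mono
        intro x
        simp only [BoundedContinuousFunction.smul_apply, BoundedContinuousFunction.mul_apply,
          BoundedContinuousFunction.add_apply, BoundedContinuousFunction.sub_apply, Uf_pow_apply,
          Cf_apply, smul_eq_mul]
        rw [← Complex.ofReal_mul, ← Complex.ofReal_mul, ← Complex.ofReal_mul, ← Complex.ofReal_mul,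
          ← Complex.ofReal_sub, ← Complex.ofReal_mul, ← Complex.ofReal_add, Complex.ofReal_re,
          Complex.ofReal_re]
        set c := 1 - Real.cos (s * ⟪ν, x⟫_ℝ) with hc
        have hc0 : 0 ≤ c := by rw [hc]; linarith [Real.cos_le_one (s * ⟪ν, x⟫_ℝ)]
        have hc2 : c ≤ 2 := by rw [hc]; linarith [Real.neg_one_le_cos (s * ⟪ν, x⟫_ℝ)]
        set V := (N : ℝ) ^ (2 * j) * (2 - 2 * Real.cos (t * ⟪ω, x⟫_ℝ)) ^ j with hV
        set V₀ := (2 - 2 * Real.cos (t₀ * ⟪ω, x⟫_ℝ)) ^ j with hV₀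
        have hV₀4 : V₀ ≤ 4 ^ j := pow_le_pow_left₀ (two_sub_nonneg _) (two_sub_le _) j
        have hVV : V₀ ≤ V := by
          rw [hV, hV₀, pow_mul, ← mul_pow]
          apply pow_le_pow_left₀ (two_sub_nonneg _)
          have := cos_mul_le N (t * ⟪ω, x⟫_ℝ)
          rw [← mul_assoc, ht, mul_div_cancel₀ _ hN0.ne'] at this
          exact this
        have e : (N : ℝ) ^ (2 * j) * (c * (2 - 2 * Real.cos (t * ⟪ω, x⟫_ℝ)) ^ j) = c * V := by
          rw [hV]; ring
        rw [e]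
        nlinarith [mul_nonneg hc0 (sub_nonneg.2 hV₀4), mul_nonneg (sub_nonneg.2 hc2) (sub_nonneg.2 hVV)]
      rw [Mean.real_smul, map_add, Complex.add_re, Mean.real_smul, Mean.real_smul, map_sub,
        Complex.sub_re, Mean.real_smul] at h1
      exact h1
    have hCs : (L (Cf ν s)).re ≤ C₀ * s := by
      have hreg0 : s ^ 2 + ((0 : ℕ) * (0 : ℝ)) ^ 2 ≤ 2 * r * s := by
        norm_num; nlinarith
      have h1 := h.F_eq (j := 0) (t := 0) hs0.le hreg0
      rw [pow_zero, mul_one] at h1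
      rw [h1]
      have h2 : ww L ω 0 0 = 1 := by unfold ww; rw [pow_zero, h.mean.one]; simp
      have h3 := hC₀ s 0 hs0.le hs1 le_rfl zero_le_one
      have h4 : cc M Q 0 = 1 := by
        have h5 := hC₀ 0 0 le_rfl zero_le_one le_rfl zero_le_one
        simp only [mul_zero, pow_zero, one_mul, mul_one, ne_eq, OfNat.ofNat_ne_zero,
          not_false_eq_true, zero_pow, add_zero, norm_le_zero_iff, sub_eq_zero] at h5
        rw [← h5]
        unfold DD
        simp [kc, h.q0]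
      rw [h4] at h3
      simp only [mul_zero, pow_zero, one_mul, mul_one, ne_eq, OfNat.ofNat_ne_zero,
          not_false_eq_true, zero_pow, add_zero] at h3
      have h5 := (Complex.abs_re_le_norm _).trans h3
      rw [Complex.sub_re, Complex.one_re] at h5
      rw [h2]
      linarith [(abs_le.1 h5).1]
    have hw : (N : ℝ) ^ (2 * j) * ww L ω j t ≤ m * t₀ ^ (2 * j) := by
      have := mul_le_mul_of_nonneg_left (hle t ht0) (show 0 ≤ (N : ℝ) ^ (2 * j) by positivity)
      calc _ ≤ _ := this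
        _ = m * ((N : ℝ) ^ (2 * j) * t ^ (2 * j)) := by ring
        _ = _ := by rw [hNt]
    -- combine
    have h1 : (N : ℝ) ^ (2 * j) * (L (Cf ν s * Uf ω t ^ j)).re ≥
        (m - ε - (cc M Q j).re - C * (s + t ^ 2)) * t₀ ^ (2 * j) := by
      rw [hF]
      have h2 : (N : ℝ) ^ (2 * j) * (DD (pol M Q) j s t).re ≤
          (N : ℝ) ^ (2 * j) * (t ^ (2 * j) * (cc M Q j).re + C * t ^ (2 * j) * (s + t ^ 2)) :=
        mul_le_mul_of_nonneg_left hD' (by positivity)
      have h3 : (N : ℝ) ^ (2 * j) * (t ^ (2 * j) * (cc M Q j).re + C * t ^ (2 * j) * (s + t ^ 2)) =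
          ((cc M Q j).re + C * (s + t ^ 2)) * t₀ ^ (2 * j) := by
        rw [← hNt]; ring
      rw [h3] at h2
      rw [mul_sub]
      nlinarith
    have hT : 0 < t₀ ^ (2 * j) := by positivity
    have hs2 : C * (s + t ^ 2) ≤ C * (s + s ^ 2) := by
      apply mul_le_mul_of_nonneg_left _ hC0
      have := pow_le_pow_left₀ ht0.le hts 2
      linarith
    have h2 : (m - ε - (cc M Q j).re - C * (s + t ^ 2)) * t₀ ^ (2 * j) <
        (ε / 2 + 2 * ε) * t₀ ^ (2 * j) := by
      calc _ ≤ (N : ℝ) ^ (2 * j) * (L (Cf ν s * Uf ω t ^ j)).re := h1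
        _ ≤ 4 ^ j * (L (Cf ν s)).re + 2 * ((N : ℝ) ^ (2 * j) * ww L ω j t - ww L ω j t₀) := hup
        _ ≤ 4 ^ j * (C₀ * s) + 2 * (m * t₀ ^ (2 * j) - (m - ε) * t₀ ^ (2 * j)) := by
            apply add_le_add
            · exact mul_le_mul_of_nonneg_left hCs (by positivity)
            · linarith
        _ < _ := by linarith
    have h3 := lt_of_mul_lt_mul_right h2 hT.le
    have h4 : m - (cc M Q j).re = 4 * ε := by rw [hε]; ring
    linarith
  intro t ht
  exact (hle t ht).trans (mul_le_mul_of_nonneg_right key (by positivity))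

/-- All moments are finite. -/
theorem Sit.moments (h : Sit L ν ω r M Q) (j : ℕ) :
    ∃ C : ℝ, ∀ t : ℝ, 0 < t → ww L ω j t ≤ C * t ^ (2 * j) := by
  induction j with
  | zero =>
    refine ⟨1, fun t _ => ?_⟩
    have := h.ww_le 0 t
    simpa using this
  | succ j ih =>
    have hup := h.upper j ih
    obtain ⟨C, hC0, hC⟩ := DD_bound M Q j
    obtain ⟨C', hC'0, hC'⟩ := DD_bound M Q (j + 1)
    have hr := h.r0
    -- threshold
    set J : ℝ := (j : ℝ) + 1 with hJ
    have hJ1 : 1 ≤ J := by rw [hJ]; linarith [(Nat.cast_nonneg j : (0 : ℝ) ≤ j)]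
    set t₁ : ℝ := min 1 (min (Real.sqrt r / J) (r / J)) with ht₁
    have ht₁0 : 0 < t₁ := by
      have : 0 < Real.sqrt r := Real.sqrt_pos.2 hr
      positivity
    set B : ℝ := ‖cc M Q (j + 1)‖ + C' * (J ^ 2 / r + 1) + 4 * (C * (J ^ 2 / r + 1)) with hB
    refine ⟨max B (4 ^ (j + 1) / t₁ ^ (2 * (j + 1))), fun t ht => ?_⟩
    by_cases htt : t ≤ t₁
    · refine le_trans ?_ (mul_le_mul_of_nonneg_right (le_max_left _ _) (by positivity))
      have ht1 : t ≤ 1 := htt.trans (min_le_left _ _)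
      have htr : t * J ≤ Real.sqrt r := by
        have : t ≤ Real.sqrt r / J := htt.trans ((min_le_right _ _).trans (min_le_left _ _))
        rwa [le_div_iff₀ (by linarith)] at this
      have htr2 : t * J ≤ r := by
        have : t ≤ r / J := htt.trans ((min_le_right _ _).trans (min_le_right _ _))
        rwa [le_div_iff₀ (by linarith)] at this
      set s : ℝ := (J * t) ^ 2 / r with hs
      have hs0 : 0 ≤ s := by positivity
      have hsq : (J * t) ^ 2 ≤ r := by
        have h1 := pow_le_pow_left₀ (by positivity) htr 2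
        rw [Real.sq_sqrt hr.le] at h1
        rw [mul_comm J t]; exact h1
      have hs1 : s ≤ 1 := by rw [hs, div_le_one hr]; exact hsq
      have hsr : s ≤ r := by
        rw [hs, div_le_iff₀ hr]
        have h1 := pow_le_pow_left₀ (by positivity) htr2 2
        rw [mul_comm J t]; nlinarith
      have hsr' : (J * t) ^ 2 = r * s := by rw [hs]; field_simp
      have hreg : s ^ 2 + (((j + 1 : ℕ) : ℝ) * t) ^ 2 ≤ 2 * r * s := by
        push_cast
        rw [← hJ, hsr']
        nlinarith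
      have hregj : s ^ 2 + ((j : ℝ) * t) ^ 2 ≤ 2 * r * s := by
        have : ((j : ℝ) * t) ^ 2 ≤ (J * t) ^ 2 := by
          apply pow_le_pow_left₀ (by positivity)
          apply mul_le_mul_of_nonneg_right _ ht.le
          rw [hJ]; linarith
        rw [hsr'] at this
        nlinarith
      have hF1 := h.F_eq (j := j + 1) hs0 hreg
      have hF0 := h.F_eq (j := j) hs0 hregj
      -- comparison
      have hcmp : (L (Cf ν s * Uf ω t ^ (j + 1))).re ≤ 4 * (L (Cf ν s * Uf ω t ^ j)).re := by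
        have h1 : (L (Cf ν s * Uf ω t ^ (j + 1))).re ≤ (L (((4 : ℝ) : ℂ) • (Cf ν s * Uf ω t ^ j))).re := by
          apply h.mean.mono
          intro x
          simp only [BoundedContinuousFunction.smul_apply, BoundedContinuousFunction.mul_apply,
            Uf_pow_apply, Cf_apply, smul_eq_mul]
          rw [← Complex.ofReal_mul, ← Complex.ofReal_mul, ← Complex.ofReal_mul, Complex.ofReal_re,
            Complex.ofReal_re, pow_succ]
          have hc0 : 0 ≤ 1 - Real.cos (s * ⟪ν, x⟫_ℝ) := by linarith [Real.cos_le_one (s * ⟪ν, x⟫_ℝ)]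
          have h2 := two_sub_le (t * ⟪ω, x⟫_ℝ)
          have h3 := pow_nonneg (two_sub_nonneg (t * ⟪ω, x⟫_ℝ)) j
          nlinarith [mul_nonneg hc0 h3, mul_nonneg (mul_nonneg hc0 h3) (sub_nonneg.2 h2)]
        rwa [Mean.real_smul] at h1
      have hD1 := hC' s t hs0 hs1 ht.le ht1
      have hD1' : (DD (pol M Q) (j + 1) s t).re ≤ t ^ (2 * (j + 1)) * ‖cc M Q (j + 1)‖ +
          C' * t ^ (2 * (j + 1)) * (s + t ^ 2) := by
        calc (DD (pol M Q) (j + 1) s t).re ≤ ‖DD (pol M Q) (j + 1) s t‖ := Complex.re_le_norm _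
          _ ≤ ‖(t : ℂ) ^ (2 * (j + 1)) * cc M Q (j + 1)‖ +
              ‖DD (pol M Q) (j + 1) s t - (t : ℂ) ^ (2 * (j + 1)) * cc M Q (j + 1)‖ := by
              have := norm_add_le ((t : ℂ) ^ (2 * (j + 1)) * cc M Q (j + 1))
                (DD (pol M Q) (j + 1) s t - (t : ℂ) ^ (2 * (j + 1)) * cc M Q (j + 1))
              rwa [add_sub_cancel] at this
          _ ≤ _ := by
              rw [norm_mul, norm_pow, Complex.norm_real, Real.norm_of_nonneg ht.le]
              linarith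
      have hD0 := hC s t hs0 hs1 ht.le ht1
      have hD0' : t ^ (2 * j) * (cc M Q j).re - C * t ^ (2 * j) * (s + t ^ 2) ≤
          (DD (pol M Q) j s t).re := by
        have h1 := (Complex.abs_re_le_norm _).trans hD0
        rw [Complex.sub_re, ← Complex.ofReal_pow, Complex.re_ofReal_mul] at h1
        linarith [(abs_le.1 h1).1]
      have hF0' : (L (Cf ν s * Uf ω t ^ j)).re ≤ C * t ^ (2 * j) * (s + t ^ 2) := by
        rw [hF0]
        have := hup t ht
        linarith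
      have hst : s + t ^ 2 = (J ^ 2 / r + 1) * t ^ 2 := by
        rw [hs]; field_simp
      have hst1 : s + t ^ 2 ≤ J ^ 2 / r + 1 := by
        rw [hst]
        have : t ^ 2 ≤ 1 := pow_le_one₀ ht.le ht1
        have h2 : 0 ≤ J ^ 2 / r + 1 := by positivity
        nlinarith
      have e1 : ww L ω (j + 1) t = (DD (pol M Q) (j + 1) s t).re + (L (Cf ν s * Uf ω t ^ (j + 1))).re := by
        rw [hF1]; ring
      rw [e1, hB]
      have e2 : t ^ (2 * (j + 1)) = t ^ (2 * j) * t ^ 2 := by rw [mul_add, mul_one, pow_add]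
      have e3 : C * t ^ (2 * j) * (s + t ^ 2) = C * (J ^ 2 / r + 1) * t ^ (2 * (j + 1)) := by
        rw [hst, e2]; ring
      have e4 : C' * t ^ (2 * (j + 1)) * (s + t ^ 2) ≤ C' * t ^ (2 * (j + 1)) * (J ^ 2 / r + 1) :=
        mul_le_mul_of_nonneg_left hst1 (by positivity)
      rw [e3] at hF0'
      nlinarith
    · push Not at htt
      refine le_trans ?_ (mul_le_mul_of_nonneg_right (le_max_right _ _) (by positivity))
      refine (h.ww_le (j + 1) t).trans ?_
      rw [div_mul_eq_mul_div, le_div_iff₀ (by positivity)]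
      apply mul_le_mul_of_nonneg_left _ (by positivity)
      exact pow_le_pow_left₀ ht₁0.le htt.le _

theorem Sit.zero (h : Sit L ν ω r M Q) (t : ℝ) (ht : 0 < t) : (L (Uf ω t)).re ≤ 0 := by
  have h1 := h.upper (M + 1) (h.moments (M + 1)) t ht
  rw [cc_zero Q (by omega), Complex.zero_re, zero_mul] at h1
  refine le_of_forall_pos_le_add fun ε hε => ?_
  have h2 : (L (Uf ω t)).re ≤ (L ((ε : ℂ) • (1 : E →ᵇ ℂ) + ((((ε ^ M)⁻¹ : ℝ)) : ℂ) • Uf ω t ^ (M + 1))).re := by
    apply h.mean.mono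
    intro x
    simp only [BoundedContinuousFunction.smul_apply, BoundedContinuousFunction.add_apply,
      Uf_pow_apply, Uf_apply, smul_eq_mul, oneB_apply, mul_one]
    rw [← Complex.ofReal_mul, ← Complex.ofReal_add, Complex.ofReal_re, Complex.ofReal_re]
    set u := 2 - 2 * Real.cos (t * ⟪ω, x⟫_ℝ) with hu
    have hu0 : 0 ≤ u := two_sub_nonneg _
    by_cases hue : u ≤ ε
    · have : 0 ≤ (ε ^ M)⁻¹ * u ^ (M + 1) := by positivity
      linarith
    · push Not at hue
      have : u ≤ (ε ^ M)⁻¹ * u ^ (M + 1) := by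
        rw [pow_succ, ← mul_assoc]
        have h3 : 1 ≤ (ε ^ M)⁻¹ * u ^ M := by
          rw [inv_mul_eq_div, one_le_div (by positivity)]
          exact pow_le_pow_left₀ hε.le hue.le _
        nlinarith
      linarith
  rw [map_add, Complex.add_re, Mean.real_smul, Mean.real_smul, h.mean.one] at h2
  unfold ww at h1
  have h3 : 0 ≤ (ε ^ M)⁻¹ := by positivity
  simp only [Complex.one_re, mul_one] at h2
  nlinarith

/-- **The symbol does not depend on the tangential variable.** -/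
theorem Sit.const (h : Sit L ν ω r M Q) {s t : ℝ} (hs : 0 ≤ s) (ht : 0 < t)
    (hst : s ^ 2 + t ^ 2 ≤ 2 * r * s) : pol M Q s t = pol M Q s 0 := by
  have h0 := h.val s 0 hs (by nlinarith [sq_nonneg t])
  have h1 := h.val s t hs hst
  rw [← h0, ← h1, ← sub_eq_zero, ← map_sub]
  set g : E →ᵇ ℂ := eB (t • ω - s • ν) - eB ((0 : ℝ) • ω - s • ν) with hg
  have hgx : ∀ x, ‖g x‖ ^ 2 = 2 - 2 * Real.cos (t * ⟪ω, x⟫_ℝ) := by
    intro x
    have e1 : g x = (eB (-(s • ν)) x) * (Complex.exp (((t * ⟪ω, x⟫_ℝ : ℝ) : ℂ) * Complex.I) - 1) := by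
      rw [hg, BoundedContinuousFunction.sub_apply, zero_smul, zero_sub, sub_eq_add_neg (t • ω),
        add_comm (t • ω), ← eB_mul, BoundedContinuousFunction.mul_apply, eB_apply (t • ω),
        real_inner_smul_left, mul_comm Complex.I]
      ring
    rw [e1, norm_mul, eB_norm, one_mul, ← Complex.normSq_eq_norm_sq, Complex.normSq_apply,
      Complex.sub_re, Complex.sub_im, Complex.exp_ofReal_mul_I_re, Complex.exp_ofReal_mul_I_im]
    simp only [Complex.one_re, Complex.one_im, sub_zero]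
    nlinarith [Real.sin_sq_add_cos_sq (t * ⟪ω, x⟫_ℝ)]
  have hz : ∀ ε : ℝ, 0 < ε → ‖L g‖ ≤ ε := by
    intro ε hε
    -- unimodular constant
    obtain ⟨u, hu1, hu⟩ : ∃ u : ℂ, ‖u‖ = 1 ∧ u * L g = (‖L g‖ : ℂ) := by
      by_cases hLg : L g = 0
      · exact ⟨1, by simp, by simp [hLg]⟩
      · refine ⟨(‖L g‖ : ℂ) / L g, ?_, ?_⟩
        · rw [norm_div, Complex.norm_real, norm_norm, div_self (norm_ne_zero_iff.2 hLg)]
        · rw [div_mul_cancel₀ _ hLg]
    have e1 : ‖L g‖ = (L (u • g)).re := by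
      rw [map_smul, smul_eq_mul, hu, Complex.ofReal_re]
    rw [e1]
    have h2 : (L (u • g)).re ≤ (L ((ε : ℂ) • (1 : E →ᵇ ℂ) + (((ε⁻¹ : ℝ)) : ℂ) • Uf ω t)).re := by
      apply h.mean.mono
      intro x
      simp only [BoundedContinuousFunction.smul_apply, BoundedContinuousFunction.add_apply,
        Uf_apply, smul_eq_mul, oneB_apply, mul_one]
      rw [← Complex.ofReal_mul, ← Complex.ofReal_add, Complex.ofReal_re]
      have h3 : (u * g x).re ≤ ‖g x‖ := by
        refine (Complex.re_le_norm _).trans ?_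
        rw [norm_mul, hu1, one_mul]
      refine h3.trans ?_
      rw [← hgx x]
      have h4 : 0 ≤ ‖g x‖ := norm_nonneg _
      rw [inv_mul_eq_div]
      have h5 : ‖g x‖ * ε ≤ (ε + ‖g x‖ ^ 2 / ε) * ε := by
        rw [add_mul, div_mul_cancel₀ _ hε.ne']
        nlinarith [sq_nonneg (‖g x‖ - ε)]
      exact le_of_mul_le_mul_right h5 hε
    rw [map_add, Complex.add_re, Mean.real_smul, Mean.real_smul, h.mean.one] at h2
    have h3 := h.zero t ht
    have h4 : 0 ≤ ε⁻¹ := by positivity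
    simp only [Complex.one_re, mul_one] at h2
    nlinarith
  exact norm_eq_zero.mp (le_antisymm (le_of_forall_pos_le_add fun ε hε => by linarith [hz ε hε])
    (norm_nonneg _))

end Pool.Agent.V1178.RG
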